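import Pool.Agent.L0h5.TT.Stm
import Pool.Agent.Helper256.KM.Mertens

/-!
# Project TT, module K: almost all points are typical (helper71)
-/

set_option autoImplicit false

namespace Pool.Agent.L0h71.TT

open Finset Pool.Agent.L0h5.TT Pool.Agent.L0h94.FT
open Pool.Agent.W307.RT (fv)

/-- the points of an interval at which a linear form is divisible by `d` -/
lemma cnt {a b : ℤ} {d : ℕ} (hd : 0 < d) (hc : IsCoprime a (d : ℤ)) (Y : ℕ) :
    |(((Icc 1 Y).filter (fun x : ℕ => (d : ℤ) ∣ a * x + b)).card : ℝ) - Y / d| ≤ 1 := by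
  obtain ⟨u, v, huv⟩ := hc
  set r : ℕ := ((-(u * b)) % (d : ℤ)).toNat with hr
  have hr' : ((r : ℕ) : ℤ) = (-(u * b)) % (d : ℤ) :=
    Int.toNat_of_nonneg (Int.emod_nonneg _ (by positivity))
  have h1 : ∀ x : ℕ, (d : ℤ) ∣ a * x + b ↔ x ≡ r [MOD d] := by
    intro x
    rw [← Int.natCast_modEq_iff, hr']
    constructor
    · intro h
      have h2 : (x : ℤ) ≡ -(u * b) [ZMOD d] := by
        apply Int.ModEq.symm
        rw [Int.modEq_iff_dvd]
        have : (x : ℤ) - -(u * b) = u * (a * x + b) + d * (v * x) := by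
          linear_combination (-(x : ℤ)) * huv
        rw [this]
        exact dvd_add (Dvd.dvd.mul_left h _) (dvd_mul_right _ _)
      exact h2.trans (Int.mod_modEq _ _).symm
    · intro h
      have h2 : (x : ℤ) ≡ -(u * b) [ZMOD d] := h.trans (Int.mod_modEq _ _)
      have h3 := h2.symm
      rw [Int.modEq_iff_dvd] at h3
      have : a * x + b = a * (x - -(u * b)) + d * (v * b) := by
        linear_combination (-b) * huv
      rw [this]
      exact dvd_add (Dvd.dvd.mul_left h3 _) (dvd_mul_right _ _)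
  have h2 : (Icc 1 Y).filter (fun x : ℕ => (d : ℤ) ∣ a * x + b) =
      (Ioc 0 Y).filter (fun x => x ≡ r [MOD d]) := by
    ext x
    rw [mem_filter, mem_filter, mem_Icc, mem_Ioc, h1 x]
    constructor <;> rintro ⟨⟨h3, h4⟩, h5⟩ <;> exact ⟨⟨by omega, h4⟩, h5⟩
  rw [h2]
  have h3 := Nat.Ioc_filter_modEq_card 0 Y hd r
  have hdq : (0 : ℚ) < (d : ℚ) := by exact_mod_cast hd
  have h4 := Int.floor_le (((Y : ℚ) - r) / (d : ℚ))
  have h5 := Int.lt_floor_add_one (((Y : ℚ) - r) / (d : ℚ))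
  have h6 := Int.floor_le ((((0 : ℕ) : ℚ) - r) / (d : ℚ))
  have h7 := Int.lt_floor_add_one ((((0 : ℕ) : ℚ) - r) / (d : ℚ))
  have h8 : ((Y : ℚ) - r) / d = Y / d + (((0 : ℕ) : ℚ) - r) / d := by
    push_cast
    ring
  have hY : (0 : ℚ) ≤ (Y : ℚ) / d := by positivity
  have h9 : |((((Ioc 0 Y).filter (fun x => x ≡ r [MOD d])).card : ℤ) : ℚ) - Y / d| ≤ 1 := by
    rw [h3]
    push_cast at *
    rw [abs_le]
    rcases le_total ((⌊((Y : ℚ) - r) / (d : ℚ)⌋ : ℚ) - (⌊(0 - (r : ℚ)) / (d : ℚ)⌋ : ℚ)) 0 with h | h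
    · rw [max_eq_right h]
      constructor <;> linarith
    · rw [max_eq_left h]
      constructor <;> linarith
  rw [Int.cast_natCast] at h9
  have h10 := (Rat.cast_le (K := ℝ)).mpr h9
  rw [Rat.cast_abs] at h10
  push_cast at h10
  exact h10

/-- the inequality of Turan and Kubilius for a linear form -/
lemma turan (a b : ℤ) (P : Finset ℕ) (hP : ∀ p ∈ P, p.Prime) (hc : ∀ p ∈ P, ¬ (p : ℤ) ∣ a)
    (Y : ℕ) :
    ∑ x ∈ Icc 1 Y, (∑ p ∈ P, ((if (p : ℤ) ∣ a * (x : ℕ) + b then (1 : ℝ) else 0) - 1 / p)) ^ 2 ≤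
      Y * ∑ p ∈ P, 1 / (p : ℝ) + 3 * (P.card : ℝ) ^ 2 := by
  have hcop : ∀ p ∈ P, IsCoprime a (p : ℤ) := by
    intro p hp
    have h1 : IsCoprime (p : ℤ) a :=
      (Nat.prime_iff_prime_int.mp (hP p hp)).irreducible.coprime_iff_not_dvd.mpr (hc p hp)
    exact h1.symm
  have hN : ∀ d : ℕ, ∑ x ∈ Icc 1 Y, (if (d : ℤ) ∣ a * (x : ℕ) + b then (1 : ℝ) else 0) =
      (((Icc 1 Y).filter (fun x : ℕ => (d : ℤ) ∣ a * x + b)).card : ℝ) := by
    intro d
    rw [Finset.sum_ite, Finset.sum_const_zero, add_zero, Finset.sum_const, nsmul_eq_mul, mul_one]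
  have h1 : ∑ x ∈ Icc 1 Y,
      (∑ p ∈ P, ((if (p : ℤ) ∣ a * (x : ℕ) + b then (1 : ℝ) else 0) - 1 / p)) ^ 2 =
      ∑ p ∈ P, ∑ q ∈ P, ∑ x ∈ Icc 1 Y,
        ((if (p : ℤ) ∣ a * (x : ℕ) + b then (1 : ℝ) else 0) - 1 / p) *
        ((if (q : ℤ) ∣ a * (x : ℕ) + b then (1 : ℝ) else 0) - 1 / q) := by
    simp_rw [sq, Finset.sum_mul_sum]
    rw [Finset.sum_comm]
    apply Finset.sum_congr rfl
    intro p _
    rw [Finset.sum_comm]
  rw [h1]
  have h2 : ∀ p ∈ P, ∀ q ∈ P, ∑ x ∈ Icc 1 Y,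
        ((if (p : ℤ) ∣ a * (x : ℕ) + b then (1 : ℝ) else 0) - 1 / p) *
        ((if (q : ℤ) ∣ a * (x : ℕ) + b then (1 : ℝ) else 0) - 1 / q) ≤
        (if p = q then (Y : ℝ) * (1 / p) else 0) + 3 := by
    intro p hp q hq
    have hp1 : (1 : ℝ) ≤ p := by exact_mod_cast (hP p hp).one_le
    have hq1 : (1 : ℝ) ≤ q := by exact_mod_cast (hP q hq).one_le
    have hp2 : (1 : ℝ) / p ≤ 1 := by rw [div_le_one (by linarith)]; exact hp1
    have hq2 : (1 : ℝ) / q ≤ 1 := by rw [div_le_one (by linarith)]; exact hq1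
    have hp3 : (0 : ℝ) ≤ 1 / p := by positivity
    have hq3 : (0 : ℝ) ≤ 1 / q := by positivity
    have e1 := cnt (b := b) (hP p hp).pos (hcop p hp) Y
    have e2 := cnt (b := b) (hP q hq).pos (hcop q hq) Y
    rw [← hN, abs_le] at e1 e2
    have hexp : ∑ x ∈ Icc 1 Y,
        ((if (p : ℤ) ∣ a * (x : ℕ) + b then (1 : ℝ) else 0) - 1 / p) *
        ((if (q : ℤ) ∣ a * (x : ℕ) + b then (1 : ℝ) else 0) - 1 / q) =
        ∑ x ∈ Icc 1 Y, (if (p : ℤ) ∣ a * (x : ℕ) + b then (1 : ℝ) else 0) *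
          (if (q : ℤ) ∣ a * (x : ℕ) + b then (1 : ℝ) else 0) -
        (1 / q) * ∑ x ∈ Icc 1 Y, (if (p : ℤ) ∣ a * (x : ℕ) + b then (1 : ℝ) else 0) -
        (1 / p) * ∑ x ∈ Icc 1 Y, (if (q : ℤ) ∣ a * (x : ℕ) + b then (1 : ℝ) else 0) +
        Y * ((1 / p) * (1 / q)) := by
      rw [Finset.mul_sum, Finset.mul_sum, ← Finset.sum_sub_distrib, ← Finset.sum_sub_distrib]
      have : (Y : ℝ) * ((1 / p) * (1 / q)) = ∑ x ∈ Icc 1 Y, ((1 : ℝ) / p) * (1 / q) := by
        rw [Finset.sum_const, Nat.card_Icc, nsmul_eq_mul]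
        simp
      rw [this, ← Finset.sum_add_distrib]
      apply Finset.sum_congr rfl
      intro x _
      ring
    rw [hexp]
    by_cases hpq : p = q
    · subst hpq
      rw [if_pos rfl]
      have e3 : ∑ x ∈ Icc 1 Y, (if (p : ℤ) ∣ a * (x : ℕ) + b then (1 : ℝ) else 0) *
          (if (p : ℤ) ∣ a * (x : ℕ) + b then (1 : ℝ) else 0) =
          ∑ x ∈ Icc 1 Y, (if (p : ℤ) ∣ a * (x : ℕ) + b then (1 : ℝ) else 0) := by
        apply Finset.sum_congr rfl
        intro x _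
        split_ifs <;> simp
      rw [e3]
      set N := ∑ x ∈ Icc 1 Y, (if (p : ℤ) ∣ a * (x : ℕ) + b then (1 : ℝ) else 0) with hNd
      have e4 : (Y : ℝ) / p = Y * (1 / p) := by ring
      rw [e4] at e1
      have hY : (0 : ℝ) ≤ Y := Nat.cast_nonneg _
      have hYp : 0 ≤ (Y : ℝ) * ((1 / p) * (1 / p)) := by positivity
      have e5 : (1 / (p : ℝ)) * (Y * (1 / p) - 1) ≤ (1 / p) * N :=
        mul_le_mul_of_nonneg_left (by linarith) hp3
      nlinarith
    · rw [if_neg hpq, zero_add]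
      have e3 : ∑ x ∈ Icc 1 Y, (if (p : ℤ) ∣ a * (x : ℕ) + b then (1 : ℝ) else 0) *
          (if (q : ℤ) ∣ a * (x : ℕ) + b then (1 : ℝ) else 0) =
          ∑ x ∈ Icc 1 Y, (if ((p * q : ℕ) : ℤ) ∣ a * (x : ℕ) + b then (1 : ℝ) else 0) := by
        apply Finset.sum_congr rfl
        intro x _
        have hcp : IsCoprime (p : ℤ) (q : ℤ) :=
          Nat.isCoprime_iff_coprime.mpr ((Nat.coprime_primes (hP p hp) (hP q hq)).mpr hpq)
        have : ((p * q : ℕ) : ℤ) ∣ a * (x : ℕ) + b ↔ ((p : ℤ) ∣ a * (x : ℕ) + b ∧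
            (q : ℤ) ∣ a * (x : ℕ) + b) := by
          push_cast
          constructor
          · intro h
            exact ⟨(dvd_mul_right _ _).trans h, (dvd_mul_left _ _).trans h⟩
          · rintro ⟨h, h'⟩
            exact hcp.mul_dvd h h'
        by_cases h3 : (p : ℤ) ∣ a * (x : ℕ) + b
        · by_cases h4 : (q : ℤ) ∣ a * (x : ℕ) + b
          · rw [if_pos h3, if_pos h4, if_pos (this.mpr ⟨h3, h4⟩), one_mul]
          · rw [if_neg h4, if_neg (fun h => h4 (this.mp h).2), mul_zero]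
        · rw [if_neg h3, if_neg (fun h => h3 (this.mp h).1), zero_mul]
      rw [e3]
      have e6 := cnt (b := b) (Nat.mul_pos (hP p hp).pos (hP q hq).pos)
        (show IsCoprime a ((p * q : ℕ) : ℤ) by
          push_cast
          exact (hcop p hp).mul_right (hcop q hq)) Y
      rw [← hN, abs_le] at e6
      have e7 : (Y : ℝ) / ((p * q : ℕ) : ℝ) = Y * ((1 / p) * (1 / q)) := by
        push_cast
        field_simp
      rw [e7] at e6
      have e8 : (Y : ℝ) / p = Y * (1 / p) := by ring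
      have e9 : (Y : ℝ) / q = Y * (1 / q) := by ring
      rw [e8] at e1
      rw [e9] at e2
      have e10 : (1 / (q : ℝ)) * (Y * (1 / p) - 1) ≤
          (1 / q) * ∑ x ∈ Icc 1 Y, (if (p : ℤ) ∣ a * (x : ℕ) + b then (1 : ℝ) else 0) :=
        mul_le_mul_of_nonneg_left (by linarith) hq3
      have e11 : (1 / (p : ℝ)) * (Y * (1 / q) - 1) ≤
          (1 / p) * ∑ x ∈ Icc 1 Y, (if (q : ℤ) ∣ a * (x : ℕ) + b then (1 : ℝ) else 0) :=
        mul_le_mul_of_nonneg_left (by linarith) hp3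
      nlinarith
  calc _ ≤ ∑ p ∈ P, ∑ q ∈ P, ((if p = q then (Y : ℝ) * (1 / p) else 0) + 3) :=
        Finset.sum_le_sum fun p hp => Finset.sum_le_sum fun q hq => h2 p hp q hq
    _ = _ := by
        simp_rw [Finset.sum_add_distrib]
        rw [Finset.mul_sum]
        congr 1
        · apply Finset.sum_congr rfl
          intro p hp
          rw [Finset.sum_ite_eq, if_pos hp]
        · rw [Finset.sum_const, Finset.sum_const, nsmul_eq_mul, nsmul_eq_mul]
          ring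

/-- the small primes that do not divide `a` -/
def Pa (a : ℤ) (z : ℕ) : Finset ℕ := (Icc 1 z).filter (fun p => p.Prime ∧ ¬ (p : ℤ) ∣ a)

lemma mem_Pa {a : ℤ} {z p : ℕ} : p ∈ Pa a z ↔ (1 ≤ p ∧ p ≤ z) ∧ p.Prime ∧ ¬ (p : ℤ) ∣ a := by
  unfold Pa
  rw [mem_filter, mem_Icc]

/-- the number of the prime factors -/
lemma om_near {a : ℤ} (ha : a ≠ 0) {n z A Y : ℕ} (hn : n ≠ 0) (hnY : n ≤ A * Y)
    (hYz : Y < (z + 1) ^ 4) (hAz : A ≤ z + 1) :
    |(n.primeFactors.card : ℝ) - (((Pa a z).filter (fun p => p ∣ n)).card : ℝ)| ≤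
      4 + a.natAbs.primeFactors.card := by
  have h1 : (Pa a z).filter (fun p => p ∣ n) ⊆ n.primeFactors := by
    intro p hp
    rw [mem_filter, mem_Pa] at hp
    exact Nat.mem_primeFactors.mpr ⟨hp.1.2.1, hp.2, hn⟩
  have h2 : n.primeFactors ⊆ (Pa a z).filter (fun p => p ∣ n) ∪
      (n.primeFactors.filter (fun p => z < p) ∪ a.natAbs.primeFactors) := by
    intro p hp
    have hp' := Nat.mem_primeFactors.mp hp
    rw [mem_union, mem_union, mem_filter, mem_filter, mem_Pa]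
    by_cases h3 : z < p
    · exact Or.inr (Or.inl ⟨hp, h3⟩)
    · by_cases h4 : (p : ℤ) ∣ a
      · right
        right
        exact Nat.mem_primeFactors.mpr ⟨hp'.1, Int.natCast_dvd.mp h4, by simpa using ha⟩
      · left
        exact ⟨⟨⟨hp'.1.one_le, by omega⟩, hp'.1, h4⟩, hp'.2.1⟩
  have h3 : (n.primeFactors.filter (fun p => z < p)).card ≤ 4 := by
    by_contra hcon
    push Not at hcon
    have h4 : (z + 1) ^ (n.primeFactors.filter (fun p => z < p)).card ≤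
        ∏ p ∈ n.primeFactors.filter (fun p => z < p), p := by
      rw [← Finset.prod_const]
      apply Finset.prod_le_prod'
      intro p hp
      rw [mem_filter] at hp
      omega
    have h5 : ∏ p ∈ n.primeFactors.filter (fun p => z < p), p ≤ ∏ p ∈ n.primeFactors, p := by
      apply Finset.prod_le_prod_of_subset_of_one_le' (filter_subset _ _)
      intro p hp _
      exact (Nat.mem_primeFactors.mp hp).1.one_le
    have h6 : ∏ p ∈ n.primeFactors, p ≤ n := Nat.le_of_dvd (Nat.pos_of_ne_zero hn)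
      (Nat.prod_primeFactors_dvd n)
    have h7 : (z + 1) ^ 5 ≤ (z + 1) ^ (n.primeFactors.filter (fun p => z < p)).card :=
      Nat.pow_le_pow_right (by omega) (by omega)
    have h8 : A * Y < (z + 1) * (z + 1) ^ 4 := by
      rcases Nat.eq_zero_or_pos A with h | h
      · subst h
        simp
      · calc A * Y < A * (z + 1) ^ 4 := Nat.mul_lt_mul_of_pos_left hYz h
          _ ≤ _ := Nat.mul_le_mul_right _ hAz
    have h9 : (z + 1) * (z + 1) ^ 4 = (z + 1) ^ 5 := by ring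
    omega
  have h4 := (card_le_card h2).trans (card_union_le _ _)
  have h5 := card_union_le (n.primeFactors.filter (fun p => z < p)) a.natAbs.primeFactors
  have h6 := card_le_card h1
  have h7 : n.primeFactors.card ≤ ((Pa a z).filter (fun p => p ∣ n)).card +
      (4 + a.natAbs.primeFactors.card) := by omega
  have h8 : (n.primeFactors.card : ℝ) ≤ (((Pa a z).filter (fun p => p ∣ n)).card : ℝ) +
      (4 + a.natAbs.primeFactors.card) := by exact_mod_cast h7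
  have h9 : (((Pa a z).filter (fun p => p ∣ n)).card : ℝ) ≤ n.primeFactors.card := by
    exact_mod_cast h6
  have h10 : (0 : ℝ) ≤ a.natAbs.primeFactors.card := Nat.cast_nonneg _
  rw [abs_le]
  constructor <;> linarith

/-- Mertens without the primes that divide `a` -/
lemma mertP {a : ℤ} (ha : a ≠ 0) : ∃ C : ℝ, 0 ≤ C ∧ ∀ z : ℕ, 3 ≤ z →
    |∑ p ∈ Pa a z, 1 / (p : ℝ) - LL z| ≤ C := by
  obtain ⟨C, hC⟩ := Pool.Agent.Helper256.KM.mertens_inv
  have hC0 : 0 ≤ C := (abs_nonneg _).trans (hC 3 le_rfl)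
  refine ⟨C + a.natAbs.primeFactors.card, by positivity, fun z hz => ?_⟩
  have h1 := hC z hz
  have h2 : Pa a z ⊆ (Icc 1 z).filter Nat.Prime := by
    intro p hp
    rw [mem_Pa] at hp
    rw [mem_filter, mem_Icc]
    exact ⟨hp.1, hp.2.1⟩
  have h3 : ∑ p ∈ Pa a z, 1 / (p : ℝ) ≤ ∑ p ∈ (Icc 1 z).filter Nat.Prime, 1 / (p : ℝ) :=
    Finset.sum_le_sum_of_subset_of_nonneg h2 fun p _ _ => by positivity
  have h4 : ∑ p ∈ (Icc 1 z).filter Nat.Prime, 1 / (p : ℝ) ≤ ∑ p ∈ Pa a z, 1 / (p : ℝ) +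
      a.natAbs.primeFactors.card := by
    rw [← Finset.sum_sdiff h2, add_comm]
    gcongr
    calc ∑ p ∈ (Icc 1 z).filter Nat.Prime \ Pa a z, 1 / (p : ℝ) ≤
        ∑ p ∈ (Icc 1 z).filter Nat.Prime \ Pa a z, (1 : ℝ) := by
          apply Finset.sum_le_sum
          intro p hp
          rw [mem_sdiff, mem_filter] at hp
          have : (1 : ℝ) ≤ p := by exact_mod_cast hp.1.2.one_le
          rw [div_le_one (by linarith)]
          exact this
      _ = (((Icc 1 z).filter Nat.Prime \ Pa a z).card : ℝ) := by simp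
      _ ≤ _ := by
          have : (Icc 1 z).filter Nat.Prime \ Pa a z ⊆ a.natAbs.primeFactors := by
            intro p hp
            rw [mem_sdiff, mem_filter, mem_Icc, mem_Pa] at hp
            obtain ⟨⟨h5, h6⟩, h7⟩ := hp
            have h8 : (p : ℤ) ∣ a := by
              by_contra h9
              exact h7 ⟨h5, h6, h9⟩
            exact Nat.mem_primeFactors.mpr ⟨h6, Int.natCast_dvd.mp h8, by simpa using ha⟩
          exact_mod_cast card_le_card this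
  rw [abs_le] at h1 ⊢
  have h5 : LL z = Real.log (Real.log z) := rfl
  rw [h5]
  have h10 : (0 : ℝ) ≤ a.natAbs.primeFactors.card := Nat.cast_nonneg _
  constructor <;> linarith [h1.1, h1.2]

/-- the fourth root -/
lemma root4 (Y : ℕ) : ∃ z : ℕ, z ^ 4 ≤ Y ∧ Y < (z + 1) ^ 4 := by
  refine ⟨Nat.sqrt (Nat.sqrt Y), ?_, ?_⟩
  · have h1 := Nat.sqrt_le' (Nat.sqrt Y)
    have h2 := Nat.sqrt_le' Y
    calc Nat.sqrt (Nat.sqrt Y) ^ 4 = (Nat.sqrt (Nat.sqrt Y) ^ 2) ^ 2 := by ring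
      _ ≤ (Nat.sqrt Y) ^ 2 := Nat.pow_le_pow_left h1 2
      _ ≤ Y := h2
  · have h1 := Nat.lt_succ_sqrt' (Nat.sqrt Y)
    have h2 := Nat.lt_succ_sqrt' Y
    calc Y < (Nat.sqrt Y + 1) ^ 2 := h2
      _ ≤ ((Nat.sqrt (Nat.sqrt Y) + 1) ^ 2) ^ 2 := Nat.pow_le_pow_left h1 2
      _ = _ := by ring

lemma ll_near {X Y z : ℕ} (hz : 3 ≤ z) (h1 : z ^ 4 ≤ Y) (h2 : Y < (z + 1) ^ 4) (h3 : X ≤ Y)
    (h4 : Y ≤ X ^ 2) : |LL z - LL X| ≤ Real.log 8 := by
  have hX : 3 ≤ X := by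
    by_contra hcon
    push Not at hcon
    have : X ^ 2 ≤ 2 ^ 2 := Nat.pow_le_pow_left (by omega) 2
    have : 3 ^ 4 ≤ z ^ 4 := Nat.pow_le_pow_left hz 4
    omega
  have hzR : (3 : ℝ) ≤ z := by exact_mod_cast hz
  have hXR : (3 : ℝ) ≤ X := by exact_mod_cast hX
  have hlz : 0 < Real.log z := Real.log_pos (by linarith)
  have hlX : 0 < Real.log X := Real.log_pos (by linarith)
  have h5 : 4 * Real.log z ≤ 2 * Real.log X := by
    have h6 : ((z : ℝ)) ^ 4 ≤ (X : ℝ) ^ 2 := by exact_mod_cast h1.trans h4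
    have h7 := Real.log_le_log (by positivity) h6
    rw [Real.log_pow, Real.log_pow] at h7
    push_cast at h7
    exact h7
  have h6 : Real.log X ≤ 8 * Real.log z := by
    have h7 : (X : ℝ) ≤ (z : ℝ) ^ 8 := by
      have h8 : z + 1 ≤ z ^ 2 := by nlinarith
      have h9 : X ≤ z ^ 8 := by
        calc X ≤ (z + 1) ^ 4 := (h3.trans_lt h2).le
          _ ≤ (z ^ 2) ^ 4 := Nat.pow_le_pow_left h8 4
          _ = _ := by ring
      exact_mod_cast h9
    have h8 := Real.log_le_log (by linarith) h7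
    rw [Real.log_pow] at h8
    push_cast at h8
    exact h8
  have h7 : LL X ≤ Real.log 8 + LL z := by
    unfold LL
    rw [← Real.log_mul (by norm_num) hlz.ne']
    exact Real.log_le_log hlX h6
  have h8 : LL z ≤ LL X := by
    unfold LL
    exact Real.log_le_log hlz (by linarith)
  have h9 : 0 ≤ Real.log 8 := Real.log_nonneg (by norm_num)
  rw [abs_le]
  constructor <;> linarith

/-- the values of a form that have an atypical number of prime factors -/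
lemma bad {a : ℤ} (ha : a ≠ 0) (b : ℤ) : ∃ X0 : ℕ, 16 ≤ X0 ∧ ∀ X : ℕ, X0 ≤ X → ∀ Y t : ℕ,
    X ≤ Y → Y ≤ X ^ 2 → t ≤ Y →
    (((Icc 1 Y).filter (fun x : ℕ => a * x + b * t ≠ 0 ∧
      ¬ |(((a * x + b * t).natAbs.primeFactors.card : ℕ) : ℝ) - LL X| ≤
        (LL X) ^ (3 / 4 : ℝ))).card : ℝ) ≤ 8 * Y / (LL X) ^ (1 / 2 : ℝ) := by
  obtain ⟨C, hC0, hC⟩ := mertP ha
  set c1 : ℝ := 4 + a.natAbs.primeFactors.card with hc1
  set c2 : ℝ := C + Real.log 8 with hc2
  have hc10 : 0 ≤ c1 := by positivity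
  have hlog8 : 0 ≤ Real.log 8 := Real.log_nonneg (by norm_num)
  have hc20 : 0 ≤ c2 := by positivity
  have hev : ∀ᶠ X : ℕ in Filter.atTop, 1 ≤ LL X ∧ c2 + 3 ≤ LL X ∧
      2 * (c1 + c2) ≤ (LL X) ^ (3 / 4 : ℝ) := by
    have hL : Filter.Tendsto LL Filter.atTop Filter.atTop :=
      Real.tendsto_log_atTop.comp (Real.tendsto_log_atTop.comp tendsto_natCast_atTop_atTop)
    have hL2 : Filter.Tendsto (fun X : ℕ => (LL X) ^ (3 / 4 : ℝ)) Filter.atTop Filter.atTop :=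
      (tendsto_rpow_atTop (by norm_num)).comp hL
    filter_upwards [hL.eventually_ge_atTop 1, hL.eventually_ge_atTop (c2 + 3),
      hL2.eventually_ge_atTop (2 * (c1 + c2))] with X h1 h2 h3
    exact ⟨h1, h2, h3⟩
  obtain ⟨X1, hX1⟩ := Filter.eventually_atTop.mp hev
  set A : ℕ := a.natAbs + b.natAbs with hA
  set z0 : ℕ := max 3 A with hz0
  refine ⟨max (max 16 X1) (z0 ^ 4), (le_max_left _ _).trans (le_max_left _ _),
    fun X hX Y t hXY hYX ht => ?_⟩
  have hXX1 : X1 ≤ X := (le_max_right _ _).trans ((le_max_left _ _).trans hX)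
  have hXz : z0 ^ 4 ≤ X := (le_max_right _ _).trans hX
  obtain ⟨hLL1, hLL2, hLL3⟩ := hX1 X hXX1
  obtain ⟨z, hz1, hz2⟩ := root4 Y
  have hzz : z0 ≤ z := by
    by_contra hcon
    push Not at hcon
    have : (z + 1) ^ 4 ≤ z0 ^ 4 := Nat.pow_le_pow_left hcon 4
    omega
  have hz3 : 3 ≤ z := (le_max_left _ _).trans hzz
  have hAz : A ≤ z := (le_max_right _ _).trans hzz
  set L : ℝ := ∑ p ∈ Pa a z, 1 / (p : ℝ) with hL
  have hLn : |L - LL X| ≤ c2 := by
    have h1 := hC z hz3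
    have h2 := ll_near hz3 hz1 hz2 hXY hYX
    have h3 := abs_add_le (L - LL z) (LL z - LL X)
    have h4 : L - LL z + (LL z - LL X) = L - LL X := by ring
    rw [h4] at h3
    linarith
  have hT := turan a (b * t) (Pa a z) (fun p hp => (mem_Pa.mp hp).2.1)
    (fun p hp => (mem_Pa.mp hp).2.2) Y
  rw [← hL] at hT
  have hcard : ((Pa a z).card : ℝ) ^ 2 ≤ Y := by
    have h1 : (Pa a z).card ≤ z := by
      have := card_le_card (show Pa a z ⊆ Icc 1 z from filter_subset _ _)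
      simpa using this
    have h2 : (Pa a z).card ^ 2 ≤ Y := by
      calc (Pa a z).card ^ 2 ≤ z ^ 2 := Nat.pow_le_pow_left h1 2
        _ ≤ z ^ 4 := Nat.pow_le_pow_right (by omega) (by norm_num)
        _ ≤ Y := hz1
    exact_mod_cast h2
  have hYR : (0 : ℝ) ≤ Y := Nat.cast_nonneg _
  have hT2 : ∑ x ∈ Icc 1 Y, (∑ p ∈ Pa a z,
      ((if (p : ℤ) ∣ a * (x : ℕ) + b * t then (1 : ℝ) else 0) - 1 / p)) ^ 2 ≤
      2 * Y * LL X := by
    rw [abs_le] at hLn
    have h1 : L + 3 ≤ 2 * LL X := by linarith [hLn.2]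
    calc _ ≤ Y * L + 3 * ((Pa a z).card : ℝ) ^ 2 := hT
      _ ≤ Y * L + 3 * Y := by linarith
      _ = Y * (L + 3) := by ring
      _ ≤ Y * (2 * LL X) := mul_le_mul_of_nonneg_left h1 hYR
      _ = _ := by ring
  set B := (Icc 1 Y).filter (fun x : ℕ => a * x + b * t ≠ 0 ∧
      ¬ |(((a * x + b * t).natAbs.primeFactors.card : ℕ) : ℝ) - LL X| ≤
        (LL X) ^ (3 / 4 : ℝ)) with hB
  have hLpos : 0 < LL X := by linarith
  have hB2 : ∀ x ∈ B, (LL X) ^ (3 / 2 : ℝ) / 4 ≤ (∑ p ∈ Pa a z,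
      ((if (p : ℤ) ∣ a * (x : ℕ) + b * t then (1 : ℝ) else 0) - 1 / p)) ^ 2 := by
    intro x hx
    rw [hB, mem_filter, mem_Icc] at hx
    obtain ⟨⟨hx1, hx2⟩, hx3, hx4⟩ := hx
    push Not at hx4
    set n := (a * x + b * t).natAbs with hn
    have hn0 : n ≠ 0 := Int.natAbs_ne_zero.mpr hx3
    have hnY : n ≤ A * Y := by
      calc n ≤ (a * x).natAbs + (b * t).natAbs := Int.natAbs_add_le _ _
        _ = a.natAbs * x + b.natAbs * t := by
          rw [Int.natAbs_mul, Int.natAbs_mul, Int.natAbs_natCast, Int.natAbs_natCast]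
        _ ≤ a.natAbs * Y + b.natAbs * Y := by gcongr
        _ = _ := by rw [hA]; ring
    have h1 := om_near ha hn0 hnY hz2 (by omega : A ≤ z + 1)
    rw [← hc1] at h1
    have h2 : ∑ p ∈ Pa a z, ((if (p : ℤ) ∣ a * (x : ℕ) + b * t then (1 : ℝ) else 0) - 1 / p) =
        (((Pa a z).filter (fun p => p ∣ n)).card : ℝ) - L := by
      rw [Finset.sum_sub_distrib, ← hL]
      congr 1
      rw [Finset.sum_ite, Finset.sum_const_zero, add_zero, Finset.sum_const, nsmul_eq_mul,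
        mul_one]
      congr 2
      ext p
      rw [mem_filter, mem_filter, Int.natCast_dvd]
    rw [h2]
    set w : ℝ := (((Pa a z).filter (fun p => p ∣ n)).card : ℝ) with hw
    have h3 : (LL X) ^ (3 / 4 : ℝ) / 2 ≤ |w - L| := by
      have h4 : |(n.primeFactors.card : ℝ) - LL X| ≤ |(n.primeFactors.card : ℝ) - w| +
          |w - L| + |L - LL X| := by
        have h5 := abs_add_three ((n.primeFactors.card : ℝ) - w) (w - L) (L - LL X)
        have h6 : (n.primeFactors.card : ℝ) - w + (w - L) + (L - LL X) =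
          (n.primeFactors.card : ℝ) - LL X := by ring
        rw [h6] at h5
        exact h5
      linarith
    have h4 : (LL X) ^ (3 / 2 : ℝ) / 4 = ((LL X) ^ (3 / 4 : ℝ) / 2) ^ 2 := by
      rw [div_pow, ← Real.rpow_natCast, ← Real.rpow_mul hLpos.le]
      norm_num
    rw [h4, ← sq_abs (w - L)]
    exact pow_le_pow_left₀ (by positivity) h3 2
  have h1 : (B.card : ℝ) * ((LL X) ^ (3 / 2 : ℝ) / 4) ≤ 2 * Y * LL X := by
    calc (B.card : ℝ) * ((LL X) ^ (3 / 2 : ℝ) / 4) = ∑ x ∈ B, (LL X) ^ (3 / 2 : ℝ) / 4 := by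
          rw [Finset.sum_const, nsmul_eq_mul]
      _ ≤ ∑ x ∈ B, (∑ p ∈ Pa a z,
            ((if (p : ℤ) ∣ a * (x : ℕ) + b * t then (1 : ℝ) else 0) - 1 / p)) ^ 2 :=
          Finset.sum_le_sum hB2
      _ ≤ ∑ x ∈ Icc 1 Y, (∑ p ∈ Pa a z,
            ((if (p : ℤ) ∣ a * (x : ℕ) + b * t then (1 : ℝ) else 0) - 1 / p)) ^ 2 :=
          Finset.sum_le_sum_of_subset_of_nonneg (filter_subset _ _) fun _ _ _ => sq_nonneg _
      _ ≤ _ := hT2
  have h2 : (LL X) ^ (3 / 2 : ℝ) = (LL X) ^ (1 / 2 : ℝ) * LL X := by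
    rw [← Real.rpow_add_one hLpos.ne']
    norm_num
  have h3 : 0 < (LL X) ^ (1 / 2 : ℝ) := Real.rpow_pos_of_pos hLpos _
  rw [le_div_iff₀ h3]
  rw [h2] at h1
  have h4 : ((B.card : ℝ) * (LL X) ^ (1 / 2 : ℝ)) * LL X ≤ (8 * Y) * LL X := by linarith
  exact le_of_mul_le_mul_right h4 hLpos

lemma sum_inv_sq (n : ℕ) : ∑ g ∈ Icc 1 n, 1 / (g : ℝ) ^ 2 ≤ 2 := by
  have h : ∀ n : ℕ, 1 ≤ n → ∑ g ∈ Icc 1 n, 1 / (g : ℝ) ^ 2 ≤ 2 - 1 / (n : ℝ) := by
    intro n hn
    induction n, hn using Nat.le_induction with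
    | base => norm_num
    | succ n hn ih =>
      rw [Finset.sum_Icc_succ_top (by omega)]
      have h1 : (1 : ℝ) ≤ n := by exact_mod_cast hn
      have h2 : 1 / ((n + 1 : ℕ) : ℝ) ^ 2 ≤ 1 / (n : ℝ) - 1 / ((n + 1 : ℕ) : ℝ) := by
        push_cast
        rw [div_sub_div _ _ (by linarith) (by linarith), div_le_div_iff₀ (by positivity)
          (by positivity)]
        nlinarith
      linarith
  rcases Nat.eq_zero_or_pos n with h0 | h0
  · subst h0
    simp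
  · have := h n h0
    have h1 : (0 : ℝ) ≤ 1 / (n : ℝ) := by positivity
    linarith

/-- **K** -/
theorem s_typ : S_TYP := by
  classical
  intro α β hα
  have h := fun c => bad (hα c) (β c)
  choose X0 h16 hX0 using h
  refine ⟨48, max (max (X0 0) (X0 1)) (X0 2), (h16 0).trans ((le_max_left _ _).trans
    (le_max_left _ _)), fun X hX => ?_⟩
  have hXc : ∀ c, X0 c ≤ X := by
    intro c
    fin_cases c
    · exact ((le_max_left _ _).trans (le_max_left _ _)).trans hX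
    · exact ((le_max_right _ _).trans (le_max_left _ _)).trans hX
    · exact (le_max_right _ _).trans hX
  have hX16 : 16 ≤ X := (h16 0).trans (hXc 0)
  set Bd : Fin 3 → ℕ → ℕ → Finset ℕ := fun c g t =>
    (Icc 1 (X ^ 2 / g)).filter (fun x : ℕ => α c * x + β c * t ≠ 0 ∧
      ¬ |(((α c * x + β c * t).natAbs.primeFactors.card : ℕ) : ℝ) - LL X| ≤
        (LL X) ^ (3 / 4 : ℝ)) with hBd
  have hsub : (TX α β X).filter (fun ω => ¬ Typ α β X ω) ⊆
      (univ : Finset (Fin 3)).biUnion fun c => (Icc 1 X).biUnion fun g =>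
        (Icc 1 (X ^ 2 / g)).biUnion fun t => (Bd c g t).image fun x => (g, x, t) := by
    rintro ⟨g, x, t⟩ hω
    rw [mem_filter, mem_TX] at hω
    obtain ⟨⟨h1, h2, h3, h4, h5⟩, h6⟩ := hω
    unfold Typ at h6
    push Not at h6
    obtain ⟨c, hc⟩ := h6
    rw [mem_biUnion]
    refine ⟨c, mem_univ _, ?_⟩
    rw [mem_biUnion]
    refine ⟨g, mem_Icc.mpr h1, ?_⟩
    rw [mem_biUnion]
    refine ⟨t, mem_Icc.mpr h3, ?_⟩
    rw [mem_image]
    refine ⟨x, ?_, rfl⟩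
    rw [hBd, mem_filter, mem_Icc]
    refine ⟨h2, ?_, ?_⟩
    · unfold F3 at h5
      exact Finset.prod_ne_zero_iff.mp h5 c (mem_univ _)
    · rw [not_le]
      exact hc
  have h1 := card_le_card hsub
  have hLL0 : 0 ≤ (LL X) ^ (1 / 2 : ℝ) := by
    apply Real.rpow_nonneg
    unfold LL
    apply Real.log_nonneg
    have h2 : Real.exp 1 ≤ X := by
      have := Real.exp_one_lt_d9
      have : (16 : ℝ) ≤ X := by exact_mod_cast hX16
      linarith
    have := Real.log_le_log (Real.exp_pos 1) h2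
    rwa [Real.log_exp] at this
  have h2 : ((((univ : Finset (Fin 3)).biUnion fun c => (Icc 1 X).biUnion fun g =>
        (Icc 1 (X ^ 2 / g)).biUnion fun t => (Bd c g t).image fun x => (g, x, t)).card : ℕ) : ℝ) ≤
      ∑ c : Fin 3, ∑ g ∈ Icc 1 X, ∑ t ∈ Icc 1 (X ^ 2 / g), ((Bd c g t).card : ℝ) := by
    have h3 : ((univ : Finset (Fin 3)).biUnion fun c => (Icc 1 X).biUnion fun g =>
        (Icc 1 (X ^ 2 / g)).biUnion fun t => (Bd c g t).image fun x => (g, x, t)).card ≤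
      ∑ c : Fin 3, ∑ g ∈ Icc 1 X, ∑ t ∈ Icc 1 (X ^ 2 / g), (Bd c g t).card := by
      refine card_biUnion_le.trans (Finset.sum_le_sum fun c _ => ?_)
      refine card_biUnion_le.trans (Finset.sum_le_sum fun g _ => ?_)
      refine card_biUnion_le.trans (Finset.sum_le_sum fun t _ => ?_)
      exact card_image_le
    exact_mod_cast h3
  have h3 : ∑ c : Fin 3, ∑ g ∈ Icc 1 X, ∑ t ∈ Icc 1 (X ^ 2 / g), ((Bd c g t).card : ℝ) ≤
      ∑ _c : Fin 3, ∑ g ∈ Icc 1 X, (8 * (X : ℝ) ^ 4 / (LL X) ^ (1 / 2 : ℝ)) *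
        (1 / (g : ℝ) ^ 2) := by
    apply Finset.sum_le_sum
    intro c _
    apply Finset.sum_le_sum
    intro g hg
    rw [mem_Icc] at hg
    have hXg : X ≤ X ^ 2 / g := by
      rw [Nat.le_div_iff_mul_le (by omega)]
      calc X * g ≤ X * X := Nat.mul_le_mul_left _ hg.2
        _ = X ^ 2 := by ring
    have hXg2 : X ^ 2 / g ≤ X ^ 2 := Nat.div_le_self _ _
    have hg0 : (0 : ℝ) < g := by exact_mod_cast hg.1
    have hcast : ((X ^ 2 / g : ℕ) : ℝ) ≤ (X : ℝ) ^ 2 / g := by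
      have := @Nat.cast_div_le ℝ _ _ _ (X ^ 2) g
      push_cast at this
      exact this
    calc ∑ t ∈ Icc 1 (X ^ 2 / g), ((Bd c g t).card : ℝ) ≤
        ∑ t ∈ Icc 1 (X ^ 2 / g), 8 * ((X ^ 2 / g : ℕ) : ℝ) / (LL X) ^ (1 / 2 : ℝ) := by
          apply Finset.sum_le_sum
          intro t ht
          rw [mem_Icc] at ht
          exact hX0 c X (hXc c) (X ^ 2 / g) t hXg hXg2 ht.2
      _ = 8 * ((X ^ 2 / g : ℕ) : ℝ) ^ 2 / (LL X) ^ (1 / 2 : ℝ) := by
          rw [Finset.sum_const, Nat.card_Icc, nsmul_eq_mul, Nat.add_sub_cancel]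
          ring
      _ ≤ 8 * ((X : ℝ) ^ 2 / g) ^ 2 / (LL X) ^ (1 / 2 : ℝ) := by gcongr
      _ = _ := by
          rw [div_pow]
          ring
  have h4 : ∑ _c : Fin 3, ∑ g ∈ Icc 1 X, (8 * (X : ℝ) ^ 4 / (LL X) ^ (1 / 2 : ℝ)) *
        (1 / (g : ℝ) ^ 2) ≤ 48 * (X : ℝ) ^ 4 / (LL X) ^ (1 / 2 : ℝ) := by
    rw [Finset.sum_const, ← Finset.mul_sum, card_univ, Fintype.card_fin, nsmul_eq_mul]
    have h5 := sum_inv_sq X
    have h6 : 0 ≤ 8 * (X : ℝ) ^ 4 / (LL X) ^ (1 / 2 : ℝ) := by positivity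
    have h7 := mul_le_mul_of_nonneg_left h5 h6
    have h8 : 48 * (X : ℝ) ^ 4 / (LL X) ^ (1 / 2 : ℝ) =
      3 * ((8 * (X : ℝ) ^ 4 / (LL X) ^ (1 / 2 : ℝ)) * 2) := by ring
    rw [h8]
    push_cast
    linarith
  have h5 : (((TX α β X).filter (fun ω => ¬ Typ α β X ω)).card : ℝ) ≤ _ := Nat.cast_le.mpr h1
  convert h5.trans (h2.trans (h3.trans h4))

end Pool.Agent.L0h71.TT
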