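import Pool.Agent.L0h5.TT.Stm

/-!
# Project TT, module C: the unlinked sets (helper71)
-/

set_option autoImplicit false

namespace Pool.Agent.L0h71.TT

open Finset Pool.Agent.L0h5.TT Pool.Agent.L0h94.FT Pool.Agent.L0h5.TF
open Pool.Agent.W262.RK (ec)

/-- the symplectic pairing -/
def bp {k : ℕ} (a b : (Fin k → Bool) × (Fin k → Bool)) : ℕ :=
  (univ.filter fun j => (a.1 j && b.2 j) = true).card +
    (univ.filter fun j => (b.1 j && a.2 j) = true).card

/-- the sign -/
def sb (b : Bool) : ℝ := if b = true then -1 else 1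

/-- the character -/
noncomputable def ch {k : ℕ} (a b : (Fin k → Bool) × (Fin k → Bool)) : ℝ :=
  (∏ j, sb (a.1 j && b.2 j)) * ∏ j, sb (b.1 j && a.2 j)

lemma prod_sb {k : ℕ} (f : Fin k → Bool) :
    ∏ j, sb (f j) = (-1) ^ (univ.filter fun j => f j = true).card := by
  unfold sb
  rw [Finset.prod_ite, Finset.prod_const, Finset.prod_const_one, mul_one]

lemma ch_eq {k : ℕ} (a b : (Fin k → Bool) × (Fin k → Bool)) : ch a b = (-1) ^ bp a b := by
  unfold ch bp
  rw [prod_sb (fun j => a.1 j && b.2 j), prod_sb (fun j => b.1 j && a.2 j), pow_add]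

lemma sum_sb {k : ℕ} (f g : Fin k → Bool) :
    ∑ b : Fin k → Bool, (∏ j, sb (f j && b j)) * ∏ j, sb (g j && b j) =
      if f = g then 2 ^ k else 0 := by
  have h1 : ∑ b : Fin k → Bool, (∏ j, sb (f j && b j)) * ∏ j, sb (g j && b j) =
      ∏ j, ∑ b : Bool, sb (f j && b) * sb (g j && b) := by
    rw [Finset.prod_univ_sum, Fintype.piFinset_univ]
    apply Finset.sum_congr rfl
    intro b _
    rw [Finset.prod_mul_distrib]
  have h2 : ∀ u v : Bool, ∑ b : Bool, sb (u && b) * sb (v && b) = if u = v then 2 else 0 := by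
    intro u v
    cases u <;> cases v <;> norm_num [sb]
  rw [h1]
  simp_rw [h2]
  split_ifs with h
  · subst h
    simp
  · have : ∃ j, f j ≠ g j := by
      by_contra hcon
      push Not at hcon
      exact h (funext hcon)
    obtain ⟨j, hj⟩ := this
    exact Finset.prod_eq_zero (mem_univ j) (if_neg hj)

lemma sb_comm {k : ℕ} (f g : Fin k → Bool) :
    ∏ j, sb (f j && g j) = ∏ j, sb (g j && f j) := by
  apply Finset.prod_congr rfl
  intro j _
  rw [Bool.and_comm]

lemma ortho {k : ℕ} (a a' : (Fin k → Bool) × (Fin k → Bool)) :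
    ∑ b : (Fin k → Bool) × (Fin k → Bool), ch a b * ch a' b = if a = a' then 4 ^ k else 0 := by
  have h1 : ∀ b : (Fin k → Bool) × (Fin k → Bool), ch a b * ch a' b =
      ((∏ j, sb (a.2 j && b.1 j)) * ∏ j, sb (a'.2 j && b.1 j)) *
      ((∏ j, sb (a.1 j && b.2 j)) * ∏ j, sb (a'.1 j && b.2 j)) := by
    intro b
    unfold ch
    rw [sb_comm b.1 a.2, sb_comm b.1 a'.2]
    ring
  simp_rw [h1]
  rw [Fintype.sum_prod_type]
  simp only []
  simp_rw [← Finset.mul_sum, sum_sb]
  rw [← Finset.sum_mul, sum_sb]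
  by_cases h2 : a = a'
  · subst h2
    simp only [if_true]
    rw [← mul_pow]
    norm_num
  · rw [if_neg h2]
    by_cases h3 : a.2 = a'.2
    · have h4 : a.1 ≠ a'.1 := fun h => h2 (Prod.ext h h3)
      rw [if_neg h4, mul_zero]
    · rw [if_neg h3, zero_mul]

/-- orthogonal sets are small -/
lemma ortho_card {k : ℕ} (A B : Finset ((Fin k → Bool) × (Fin k → Bool)))
    (h : ∀ a ∈ A, ∀ b ∈ B, Even (bp a b)) : A.card * B.card ≤ 4 ^ k := by
  rcases Nat.eq_zero_or_pos (A.card * B.card) with h0 | h0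
  · rw [h0]
    positivity
  have h1 : ((A.card * B.card : ℕ) : ℝ) = ∑ b ∈ B, ∑ a ∈ A, ch a b := by
    have : ∑ b ∈ B, ∑ a ∈ A, ch a b = ∑ b ∈ B, ∑ a ∈ A, (1 : ℝ) := by
      apply Finset.sum_congr rfl
      intro b hb
      apply Finset.sum_congr rfl
      intro a ha
      rw [ch_eq, (h a ha b hb).neg_one_pow]
    rw [this]
    simp only [Finset.sum_const, nsmul_eq_mul, mul_one]
    push_cast
    ring
  have h2 : (∑ b ∈ B, ∑ a ∈ A, ch a b) ^ 2 ≤ B.card * ∑ b ∈ B, (∑ a ∈ A, ch a b) ^ 2 :=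
    sq_sum_le_card_mul_sum_sq
  have h3 : ∑ b ∈ B, (∑ a ∈ A, ch a b) ^ 2 ≤ ∑ b, (∑ a ∈ A, ch a b) ^ 2 :=
    Finset.sum_le_sum_of_subset_of_nonneg (subset_univ _) fun _ _ _ => sq_nonneg _
  have h4 : ∑ b, (∑ a ∈ A, ch a b) ^ 2 = A.card * 4 ^ k := by
    have h5 : ∀ b : (Fin k → Bool) × (Fin k → Bool), (∑ a ∈ A, ch a b) ^ 2 =
        ∑ a ∈ A, ∑ a' ∈ A, ch a b * ch a' b := by
      intro b
      rw [sq, Finset.sum_mul_sum]
    simp_rw [h5]
    rw [Finset.sum_comm]
    have h6 : ∀ a ∈ A, ∑ b : (Fin k → Bool) × (Fin k → Bool), ∑ a' ∈ A, ch a b * ch a' b =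
        4 ^ k := by
      intro a ha
      rw [Finset.sum_comm]
      simp_rw [ortho]
      rw [Finset.sum_ite_eq, if_pos ha]
    rw [Finset.sum_congr rfl h6, Finset.sum_const, nsmul_eq_mul]
  have h5 : ((A.card * B.card : ℕ) : ℝ) ^ 2 ≤ ((A.card * B.card : ℕ) : ℝ) * 4 ^ k := by
    rw [h1]
    refine h2.trans ?_
    rw [← h1]
    push_cast
    calc (B.card : ℝ) * ∑ b ∈ B, (∑ a ∈ A, ch a b) ^ 2 ≤ B.card * (A.card * 4 ^ k) := by
          rw [← h4]
          gcongr
      _ = _ := by ring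
  have h6 : (0 : ℝ) < ((A.card * B.card : ℕ) : ℝ) := by exact_mod_cast h0
  have h7 : ((A.card * B.card : ℕ) : ℝ) ≤ 4 ^ k := by
    rw [sq] at h5
    exact le_of_mul_le_mul_left h5 h6
  exact_mod_cast h7

lemma psi_inv {δ u : ℝ} (hu : 0 < u) : -psi δ (1 / u) = Real.log u + δ * |Real.log u| := by
  unfold psi
  have h1 : Real.log (1 / u) = -Real.log u := by rw [one_div, Real.log_inv]
  rw [h1]
  split_ifs with h
  · rw [le_div_iff₀ hu, one_mul] at h
    have h2 : Real.log u ≤ 0 := Real.log_nonpos hu.le h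
    rw [abs_of_nonpos h2]
    ring
  · push Not at h
    rw [div_lt_one hu] at h
    have h2 : 0 ≤ Real.log u := Real.log_nonneg h.le
    rw [abs_of_nonneg h2]
    ring

lemma log_u {k n : ℕ} (h1 : 1 ≤ n) (h4 : n ≤ 4 ^ k) : |Real.log (n / 2 ^ k : ℝ)| ≤ k := by
  have hn : (1 : ℝ) ≤ n := by exact_mod_cast h1
  have hn4 : (n : ℝ) ≤ 4 ^ k := by exact_mod_cast h4
  have hl2 : Real.log 2 ≤ 1 := by
    have := Real.log_two_lt_d9
    linarith
  have hl20 : 0 ≤ Real.log 2 := Real.log_nonneg (by norm_num)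
  have h5 : 0 ≤ Real.log n := Real.log_nonneg hn
  have h6 : Real.log n ≤ 2 * (k * Real.log 2) := by
    have := Real.log_le_log (by linarith) hn4
    rw [show (4 : ℝ) = 2 ^ 2 by norm_num, ← pow_mul, Real.log_pow] at this
    push_cast at this
    linarith
  have hk : (k : ℝ) * Real.log 2 ≤ k * 1 := mul_le_mul_of_nonneg_left hl2 (Nat.cast_nonneg _)
  rw [Real.log_div (by linarith) (by positivity), Real.log_pow, abs_le]
  constructor <;> linarith

/-- the inequality in real numbers -/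
lemma real_ineq {k : ℕ} (hk : 1 ≤ k) {δ : ℝ} (hδ : 0 < δ) (hδ1 : δ ≤ (1 / 4) ^ k / (12 * k))
    (n : Fin 3 → ℕ) (h4 : ∀ c, n c ≤ 4 ^ k) (hp : ∀ c c', c ≠ c' → n c * n c' ≤ 4 ^ k)
    (hne : ¬ ∀ c, n c = 2 ^ k) : ∃ ρ : Fin 3 → ℝ, (∀ a, 0 < ρ a) ∧
      ∑ c, (n c : ℝ) * (1 / 2 : ℝ) ^ k * ρ c - ∑ a, psi δ (ρ a) < 3 := by
  have hkR : (1 : ℝ) ≤ k := by exact_mod_cast hk
  have h4k : (0 : ℝ) < (1 / 4) ^ k := by positivity
  have h4k1 : (1 / 4 : ℝ) ^ k ≤ 1 := pow_le_one₀ (by norm_num) (by norm_num)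
  have hδk : δ * k ≤ (1 / 4) ^ k / 12 := by
    rw [le_div_iff₀ (by positivity)] at hδ1
    rw [le_div_iff₀ (by norm_num)]
    linarith
  have hδ2 : δ ≤ 1 / 12 := by
    have : δ * 1 ≤ δ * k := mul_le_mul_of_nonneg_left hkR hδ.le
    linarith
  have hT : ∀ c, 1 ≤ n c → (n c : ℝ) * (1 / 2 : ℝ) ^ k * (1 / ((n c : ℝ) / 2 ^ k)) -
      psi δ (1 / ((n c : ℝ) / 2 ^ k)) ≤ 1 + Real.log ((n c : ℝ) / 2 ^ k) + δ * k := by
    intro c hc
    have hn : (1 : ℝ) ≤ n c := by exact_mod_cast hc
    have h5 : (0 : ℝ) < (n c : ℝ) / 2 ^ k := by positivity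
    have h6 := psi_inv (δ := δ) h5
    have h7 := log_u hc (h4 c)
    have h8 : (n c : ℝ) * (1 / 2 : ℝ) ^ k * (1 / ((n c : ℝ) / 2 ^ k)) = 1 := by
      have h9 : (n c : ℝ) * (1 / 2 : ℝ) ^ k = (n c : ℝ) / 2 ^ k := by
        rw [div_pow, one_pow]
        ring
      rw [h9, mul_one_div_cancel h5.ne']
    have h10 := mul_le_mul_of_nonneg_left h7 hδ.le
    rw [h8]
    linarith
  by_cases h0 : ∃ c, n c = 0
  · set R : ℝ := Real.exp (8 * k + 8) with hR
    refine ⟨fun c => if n c = 0 then R else 1 / ((n c : ℝ) / 2 ^ k), fun c => ?_, ?_⟩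
    · simp only []
      split_ifs with h
      · exact Real.exp_pos _
      · have : (0 : ℝ) < n c := by exact_mod_cast Nat.pos_of_ne_zero h
        positivity
    · rw [← Finset.sum_sub_distrib]
      have h5 : ∀ c, (n c : ℝ) * (1 / 2 : ℝ) ^ k * (if n c = 0 then R else 1 / ((n c : ℝ) / 2 ^ k)) -
          psi δ (if n c = 0 then R else 1 / ((n c : ℝ) / 2 ^ k)) ≤
          if n c = 0 then -(4 * (k : ℝ) + 4) else 1 + 3 / 2 * k := by
        intro c
        split_ifs with h
        · rw [h]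
          have h6 : psi δ R = (1 - δ) * (8 * k + 8) := by
            unfold psi
            rw [if_pos (by rw [hR]; exact Real.one_le_exp (by positivity)), hR, Real.log_exp]
          rw [h6]
          push_cast
          nlinarith
        · have h6 := hT c (Nat.pos_of_ne_zero h)
          have h7 := log_u (Nat.pos_of_ne_zero h) (h4 c)
          rw [abs_le] at h7
          nlinarith [h7.2]
      have h6 : ∀ c, (if n c = 0 then -(4 * (k : ℝ) + 4) else 1 + 3 / 2 * k) ≤ 1 + 3 / 2 * k := by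
        intro c
        split_ifs
        · linarith
        · exact le_rfl
      obtain ⟨c, hc⟩ := h0
      have h7 : ∑ c, (if n c = 0 then -(4 * (k : ℝ) + 4) else 1 + 3 / 2 * k) < 3 := by
        rw [← Finset.add_sum_erase _ _ (mem_univ c), if_pos hc]
        have h8 : ∑ x ∈ univ.erase c, (if n x = 0 then -(4 * (k : ℝ) + 4) else 1 + 3 / 2 * k) ≤
            ∑ x ∈ univ.erase c, (1 + 3 / 2 * (k : ℝ)) := Finset.sum_le_sum fun x _ => h6 x
        rw [Finset.sum_const, card_erase_of_mem (mem_univ c), card_univ, Fintype.card_fin,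
          nsmul_eq_mul] at h8
        push_cast at h8
        linarith
      exact (Finset.sum_le_sum fun c _ => h5 c).trans_lt h7
  · push Not at h0
    have h1 : ∀ c, 1 ≤ n c := fun c => Nat.pos_of_ne_zero (h0 c)
    have h1R : ∀ c, (1 : ℝ) ≤ n c := fun c => by exact_mod_cast h1 c
    refine ⟨fun c => 1 / ((n c : ℝ) / 2 ^ k), fun c => ?_, ?_⟩
    · have := h1R c
      positivity
    · rw [← Finset.sum_sub_distrib]
      refine (Finset.sum_le_sum fun c _ => hT c (h1 c)).trans_lt ?_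
      rw [Fin.sum_univ_three]
      have h5 : n 0 * n 1 * (n 1 * n 2) * (n 0 * n 2) ≤ 4 ^ k * 4 ^ k * (4 ^ k - 1) := by
        have e1 := hp 0 1 (by decide)
        have e2 := hp 1 2 (by decide)
        have e3 := hp 0 2 (by decide)
        have hpos : 0 < 4 ^ k := by positivity
        by_cases f1 : n 0 * n 1 = 4 ^ k
        · by_cases f2 : n 1 * n 2 = 4 ^ k
          · by_cases f3 : n 0 * n 2 = 4 ^ k
            · exfalso
              have g1 : n 0 = n 2 := by
                have : n 1 * n 0 = n 1 * n 2 := by rw [f2, mul_comm]; exact f1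
                exact Nat.eq_of_mul_eq_mul_left (h1 1) this
              have g2 : n 1 = n 2 := by
                have : n 0 * n 1 = n 0 * n 2 := by rw [f1, f3]
                exact Nat.eq_of_mul_eq_mul_left (h1 0) this
              have g3 : n 2 = 2 ^ k := by
                have : (n 2) ^ 2 = (2 ^ k) ^ 2 := by
                  rw [sq, ← pow_mul, mul_comm k 2, pow_mul]
                  rw [g1] at f3
                  exact f3
                exact Nat.pow_left_injective (by norm_num : (2:ℕ) ≠ 0) this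
              apply hne
              intro c
              fin_cases c
              · exact g1.trans g3
              · exact g2.trans g3
              · exact g3
            · have : n 0 * n 2 ≤ 4 ^ k - 1 := by omega
              exact Nat.mul_le_mul (Nat.mul_le_mul e1 e2) this
          · have : n 1 * n 2 ≤ 4 ^ k - 1 := by omega
            calc n 0 * n 1 * (n 1 * n 2) * (n 0 * n 2) ≤ 4 ^ k * (4 ^ k - 1) * 4 ^ k :=
                  Nat.mul_le_mul (Nat.mul_le_mul e1 this) e3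
              _ = _ := by ring
        · have : n 0 * n 1 ≤ 4 ^ k - 1 := by omega
          calc n 0 * n 1 * (n 1 * n 2) * (n 0 * n 2) ≤ (4 ^ k - 1) * 4 ^ k * 4 ^ k :=
                Nat.mul_le_mul (Nat.mul_le_mul this e2) e3
            _ = _ := by ring
      have h5R : ((n 0 : ℝ) * n 1 * (n 1 * n 2) * (n 0 * n 2)) ≤ 4 ^ k * 4 ^ k * (4 ^ k - 1) := by
        have : ((n 0 * n 1 * (n 1 * n 2) * (n 0 * n 2) : ℕ) : ℝ) ≤
          ((4 ^ k * 4 ^ k * (4 ^ k - 1) : ℕ) : ℝ) := by exact_mod_cast h5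
        rw [Nat.cast_mul, Nat.cast_mul (4 ^ k * 4 ^ k), Nat.cast_sub (Nat.one_le_pow _ _ (by norm_num))] at this
        push_cast at this
        exact this
      have h6 : 2 * (Real.log ((n 0 : ℝ) / 2 ^ k) + Real.log ((n 1 : ℝ) / 2 ^ k) +
          Real.log ((n 2 : ℝ) / 2 ^ k)) ≤ -(1 / 4) ^ k := by
        have a0 : (0 : ℝ) < (n 0 : ℝ) / 2 ^ k := by have := h1R 0; positivity
        have a1 : (0 : ℝ) < (n 1 : ℝ) / 2 ^ k := by have := h1R 1; positivity
        have a2 : (0 : ℝ) < (n 2 : ℝ) / 2 ^ k := by have := h1R 2; positivity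
        rw [← Real.log_mul a0.ne' a1.ne', ← Real.log_mul (mul_pos a0 a1).ne' a2.ne']
        have h7 : (2 : ℝ) * Real.log ((n 0 : ℝ) / 2 ^ k * ((n 1 : ℝ) / 2 ^ k) *
            ((n 2 : ℝ) / 2 ^ k)) = Real.log (((n 0 : ℝ) / 2 ^ k * ((n 1 : ℝ) / 2 ^ k) *
            ((n 2 : ℝ) / 2 ^ k)) ^ 2) := by
          rw [Real.log_pow]
          norm_num
        rw [h7]
        have h8 : ((n 0 : ℝ) / 2 ^ k * ((n 1 : ℝ) / 2 ^ k) * ((n 2 : ℝ) / 2 ^ k)) ^ 2 ≤
            1 - (1 / 4) ^ k := by
          have h9 : ((n 0 : ℝ) / 2 ^ k * ((n 1 : ℝ) / 2 ^ k) * ((n 2 : ℝ) / 2 ^ k)) ^ 2 =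
            ((n 0 : ℝ) * n 1 * (n 1 * n 2) * (n 0 * n 2)) / (4 ^ k * 4 ^ k * 4 ^ k) := by
            have h10 : (4 : ℝ) ^ k = (2 ^ k) ^ 2 := by
              rw [← pow_mul, mul_comm k 2, pow_mul]
              norm_num
            rw [h10]
            field_simp
          rw [h9, div_le_iff₀ (by positivity)]
          have h10 : (1 - (1 / 4 : ℝ) ^ k) * (4 ^ k * 4 ^ k * 4 ^ k) =
              4 ^ k * 4 ^ k * (4 ^ k - 1) := by
            have h11 : (1 / 4 : ℝ) ^ k * 4 ^ k = 1 := by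
              rw [← mul_pow]
              norm_num
            linear_combination (-(4 ^ k * 4 ^ k : ℝ)) * h11
          rw [h10]
          exact h5R
        have h9 : 0 < ((n 0 : ℝ) / 2 ^ k * ((n 1 : ℝ) / 2 ^ k) * ((n 2 : ℝ) / 2 ^ k)) ^ 2 := by
          positivity
        have h10 := Real.log_le_sub_one_of_pos h9
        linarith
      linarith

/-- the link -/
lemma nd_xv' {k : ℕ} (c c' : Fin 3) (b x : Fin k → Bool) :
    nd (xxk c' x) (vvk c b) = if c = c' ∧ c = 0 then
      2 * (univ.filter fun j => (b j && x j) = true).card else if c = c' then 0 else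
      (univ.filter fun j => (b j && x j) = true).card := by
  have h1 : ∀ (c c' : Fin 3) (u v : Bool),
      ((if ((ex c' v).1 && (ev c u).1) = true then 1 else 0) +
        (if ((ex c' v).2 && (ev c u).2) = true then 1 else 0)) =
      if c = c' ∧ c = 0 then 2 * (if (u && v) = true then 1 else 0) else
        if c = c' then 0 else (if (u && v) = true then 1 else 0) := by decide
  unfold nd xxk vvk
  rw [Finset.sum_congr rfl fun i _ => h1 c c' (b i) (x i)]
  split_ifs
  · rw [← Finset.mul_sum, Finset.sum_boole]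
    rfl
  · simp
  · rw [Finset.sum_boole]
    rfl

lemma link {k : ℕ} (i j : Ik k) :
    Lki lbk i j = Lki lbk j i ↔ (ty i = ty j ∨ Even (bp i.1.2 j.1.2)) := by
  have h1 : ∀ i j : Ik k, Lki lbk i j = decide (Odd (nd (xxk (ty j) j.1.2.2) (vvk (ty i) i.1.2.1))) :=
    fun i j => rfl
  rw [h1, h1, nd_xv', nd_xv']
  by_cases h : ty i = ty j
  · have hodd : ∀ m : ℕ, ¬ Odd (2 * m) := by
      intro m hm
      obtain ⟨r, hr⟩ := hm
      omega
    rw [h]
    by_cases h0 : ty j = 0
    · simp [h0, hodd]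
    · simp [h0]
  · have h' : ¬ ty j = ty i := fun e => h e.symm
    rw [if_neg (fun e => h e.1), if_neg h, if_neg (fun e => h' e.1), if_neg h', decide_eq_decide]
    unfold bp
    rw [Nat.even_add, ← Nat.not_odd_iff_even, ← Nat.not_odd_iff_even, not_iff_not]
    constructor
    · intro e
      exact Or.inr e
    · rintro (e | e)
      · exact absurd e h
      · exact e

/-- **C** -/
theorem s_cmb : S_CMB := by
  intro k hk
  have hkR : (1 : ℝ) ≤ k := by exact_mod_cast hk
  have h4k : (0 : ℝ) < (1 / 4) ^ k := by positivity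
  have h4k1 : (1 / 4 : ℝ) ^ k ≤ 1 := pow_le_one₀ (by norm_num) (by norm_num)
  refine ⟨(1 / 4) ^ k / (12 * k), by positivity, ?_, fun δ hδ hδ1 U hU => ?_⟩
  · rw [div_le_div_iff₀ (by positivity) (by norm_num)]
    linarith
  set V : Fin 3 → Finset ((Fin k → Bool) × (Fin k → Bool)) := fun c =>
    (U.filter (fun i => ty i = c)).image (fun i => i.1.2) with hV
  set n : Fin 3 → ℕ := fun c => (U.filter (fun i => ty i = c)).card with hn
  have hVn : ∀ c, (V c).card = n c := by
    intro c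
    apply card_image_of_injOn
    intro i hi j hj hij
    rw [mem_coe, mem_filter] at hi hj
    exact Subtype.ext (Prod.ext (hi.2.trans hj.2.symm) hij)
  have hmem : ∀ c a, a ∈ V c ↔ ∃ i ∈ U, ty i = c ∧ i.1.2 = a := by
    intro c a
    rw [hV]
    simp only [mem_image, mem_filter]
    constructor
    · rintro ⟨i, ⟨h1, h2⟩, h3⟩
      exact ⟨i, h1, h2, h3⟩
    · rintro ⟨i, h1, h2, h3⟩
      exact ⟨i, ⟨h1, h2⟩, h3⟩
  have hort : ∀ c c', c ≠ c' → ∀ a ∈ V c, ∀ b ∈ V c', Even (bp a b) := by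
    intro c c' hcc a ha b hb
    obtain ⟨i, hi, hic, rfl⟩ := (hmem c a).mp ha
    obtain ⟨j, hj, hjc, rfl⟩ := (hmem c' b).mp hb
    rcases (link i j).mp (hU i hi j hj) with h | h
    · exact absurd (hic.symm.trans (h.trans hjc)) hcc
    · exact h
  have hp : ∀ c c', c ≠ c' → n c * n c' ≤ 4 ^ k := by
    intro c c' hcc
    rw [← hVn, ← hVn]
    exact ortho_card _ _ (hort c c' hcc)
  have h4 : ∀ c, n c ≤ 4 ^ k := by
    intro c
    rw [← hVn]
    refine (card_le_univ _).trans ?_
    rw [Fintype.card_prod, Fintype.card_fun, Fintype.card_bool, Fintype.card_fin, ← mul_pow]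
    norm_num
  have hsum : ∀ f : Fin 3 → ℝ, ∑ i ∈ U, f (ty i) = ∑ c, (n c : ℝ) * f c := by
    intro f
    rw [← Finset.sum_fiberwise_of_maps_to (s := U) (t := univ) (g := ty) (fun i _ => mem_univ _)]
    apply Finset.sum_congr rfl
    intro c _
    rw [Finset.sum_congr rfl (g := fun _ => f c) (fun i hi => by rw [(mem_filter.mp hi).2]),
      Finset.sum_const, nsmul_eq_mul]
  by_cases hall : ∀ c, n c = 2 ^ k
  · left
    refine ⟨?_, fun j hj => ?_⟩
    · have h1 := hsum (fun _ => (1 / 2 : ℝ) ^ k)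
      rw [h1]
      have h2 : ∀ c : Fin 3, (n c : ℝ) * (1 / 2 : ℝ) ^ k = 1 := by
        intro c
        rw [hall c]
        push_cast
        rw [← mul_pow]
        norm_num
      rw [Finset.sum_congr rfl fun c _ => h2 c]
      simp
    · by_contra hcon
      push Not at hcon
      obtain ⟨c', hc'⟩ : ∃ c', c' ≠ ty j := by
        refine ⟨if ty j = 0 then 1 else 0, ?_⟩
        split_ifs with h
        · rw [h]
          decide
        · exact fun e => h e.symm
      have h1 : j.1.2 ∉ V (ty j) := by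
        intro h
        obtain ⟨i, hi, hic, hij⟩ := (hmem _ _).mp h
        have : i = j := Subtype.ext (Prod.ext hic hij)
        exact hj (this ▸ hi)
      have h2 := ortho_card (V c') (insert j.1.2 (V (ty j))) (by
        intro a ha b hb
        rw [mem_insert] at hb
        rcases hb with rfl | hb
        · obtain ⟨i, hi, hic, rfl⟩ := (hmem c' a).mp ha
          rcases (link i j).mp (hcon i hi) with h | h
          · exact absurd (hic.symm.trans h) hc'
          · exact h
        · exact hort c' (ty j) hc' a ha b hb)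
      rw [card_insert_of_notMem h1, hVn, hVn, hall, hall] at h2
      have h3 : (4 : ℕ) ^ k = 2 ^ k * 2 ^ k := by
        rw [← mul_pow]
        norm_num
      have h5 : 0 < 2 ^ k := by positivity
      rw [h3] at h2
      have h6 := Nat.le_of_mul_le_mul_left h2 h5
      omega
  · right
    obtain ⟨ρ, hρ, hlt⟩ := real_ineq hk hδ hδ1 n h4 hp hall
    refine ⟨ρ, hρ, ?_⟩
    rw [hsum (fun c => (1 / 2 : ℝ) ^ k * ρ c)]
    have h1 : ∀ c, (n c : ℝ) * ((1 / 2 : ℝ) ^ k * ρ c) = (n c : ℝ) * (1 / 2 : ℝ) ^ k * ρ c :=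
      fun c => by ring
    rw [Finset.sum_congr rfl fun c _ => h1 c]
    exact hlt

end Pool.Agent.L0h71.TT
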