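import Pool.Agent.L0h5.TT.Stm
import Pool.Agent.L0h94.FT.Loc2

/-!
# Project TT, module D2: the expansion of the truncated average (helper71)
-/

set_option autoImplicit false

namespace Pool.Agent.L0h71.TT

open Finset Pool.Agent.W262.RK Pool.Agent.L0h5.TF Pool.Agent.L0h5.TT Pool.Agent.L0h94.FT

open Pool.Agent.W762.RK2 (Pr Pr_prime nb nb_pf nb_ne_zero dvd_nb nb_inj nb_dvd nb_dvd_PP nb_eq
  prod_pf Dl Dl_mem lab sum_Tup prod_Dl prod_gw)

open Pool.Agent.L0h5.AG (gg)

section

variable {k z y : ℕ}

/-- the sum over the divisors of a fixed number -/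
lemma gs_fix (lam : ℕ → Vk k → Vk k → ℝ) (c : ℕ) (s0 : ℕ) (hs0 : s0 ∈ (PP z y).divisors) :
    Gs lam s0 * gw 1 c s0 = ∑ ξ : Pr z y → Option (Vk k),
      if nb (fun p => (ξ p).isSome) = s0 then ∏ p, Tm lam c ξ p else 0 := by
  have h1 : Gs lam s0 * gw 1 c s0 =
      ∑ s ∈ (PP z y).divisors,
        ∑ D ∈ Fintype.piFinset (fun _ : Fin k => s.divisors ×ˢ s.divisors),
        (if s = s0 then (∏ p ∈ s.primeFactors, (lam p (fun i => (dv p (D i).1, dv p (D i).2))
          (fun i => (sgn p (D i).1, sgn p (D i).2)) * (1 / ((p : ℝ) - c)))) else 0) := by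
    rw [Finset.sum_eq_single s0]
    · unfold Gs gw
      rw [sum_mul]
      refine sum_congr rfl fun D _ => ?_
      rw [if_pos rfl, prod_mul_distrib]
    · intro s _ hs
      exact Finset.sum_eq_zero fun D _ => if_neg hs
    · intro h
      exact absurd hs0 h
  rw [h1, sum_all fun s D => (if s = s0 then
    (∏ p ∈ s.primeFactors, (lam p (fun i => (dv p (D i).1, dv p (D i).2))
          (fun i => (sgn p (D i).1, sgn p (D i).2)) * (1 / ((p : ℝ) - c)))) else 0)]
  refine sum_congr rfl fun ξ _ => ?_
  refine if_congr Iff.rfl ?_ rfl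
  rw [prod_pf _ fun p => (lam p (fun i => (dv p (Dd ξ i).1, dv p (Dd ξ i).2))
          (fun i => (sgn p (Dd ξ i).1, sgn p (Dd ξ i).2)) * (1 / ((p : ℝ) - c)))]
  refine prod_congr rfl fun p _ => ?_
  unfold Tm
  cases hx : ξ p with
  | none => simp
  | some v =>
    have e1 : (fun i => (dv (p : ℕ) ((Dd ξ i).1 : ℤ), dv (p : ℕ) ((Dd ξ i).2 : ℤ))) = v := by
      funext i
      refine Prod.ext ?_ ?_
      · have h2 : c1 (ξ p) i = (v i).1 := by rw [hx]; rfl
        rw [← h2]
        unfold dv
        rw [Bool.eq_iff_iff, decide_eq_true_iff, Int.natCast_dvd_natCast]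
        exact dvd_nb _ p
      · have h2 : c2 (ξ p) i = (v i).2 := by rw [hx]; rfl
        rw [← h2]
        unfold dv
        rw [Bool.eq_iff_iff, decide_eq_true_iff, Int.natCast_dvd_natCast]
        exact dvd_nb _ p
    rw [e1]
    simp only [Option.isSome_some, if_true, Option.elim]
    rfl

/-- the typed local term -/
noncomputable def Lt (T : Option (Fin 3)) (ξ : Option (Vk k)) (h : Vk k) (p : ℕ) : ℝ :=
  T.elim (ξ.elim 1 fun _ => 0) fun c => ξ.elim 0 fun v => lamc k c v h * (1 / ((p : ℝ) - (3 : ℕ)))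

lemma tp_Dl (T : Pr z y → Option (Fin 3)) (p : Pr z y) (c : Fin 3) (h : T p = some c) :
    tp (Dl T) p = c := by
  have h1 : ∀ i, (p : ℕ) ∣ Dl T i ↔ i = c := by
    intro i
    unfold Dl
    rw [dvd_nb, decide_eq_true_iff, h, Option.some.injEq]
    exact eq_comm
  unfold tp
  rw [if_congr (h1 0) rfl (if_congr (h1 1) rfl rfl)]
  fin_cases c <;> simp

lemma tm_eq (T : Pr z y → Option (Fin 3)) (ξ : Pr z y → Option (Vk k)) :
    (if nb (fun p => (ξ p).isSome) = nb (fun p => (T p).isSome) then
      ∏ p, Tm (fun p => lamc k (tp (Dl T) p)) 3 ξ p else 0) =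
      ∏ p : Pr z y, Lt (T p) (ξ p) (hx ξ p) p := by
  by_cases h : ∀ p, (ξ p).isSome = (T p).isSome
  · rw [if_pos (by congr 1; funext p; exact h p)]
    refine prod_congr rfl fun p _ => ?_
    have hp := h p
    unfold Tm Lt
    cases hξ : ξ p with
    | none =>
      cases hT : T p with
      | none => rfl
      | some c => rw [hξ, hT] at hp; exact absurd hp (by simp)
    | some v =>
      cases hT : T p with
      | none => rw [hξ, hT] at hp; exact absurd hp (by simp)
      | some c =>
        simp only [Option.elim]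
        rw [tp_Dl T p c hT]
  · rw [if_neg (fun e => h fun p => congrFun (nb_inj e) p)]
    push Not at h
    obtain ⟨p, hp⟩ := h
    symm
    refine Finset.prod_eq_zero (mem_univ p) ?_
    unfold Lt
    cases hξ : ξ p with
    | none =>
      cases hT : T p with
      | none => rw [hξ, hT] at hp; exact absurd rfl hp
      | some c => rfl
    | some v =>
      cases hT : T p with
      | none => rfl
      | some c => rw [hξ, hT] at hp; exact absurd rfl hp

lemma gw_prod (T : Pr z y → Option (Fin 3)) :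
    ∏ j, gw 1 3 (Dl T j) = gw 1 3 (nb fun p => (T p).isSome) := by
  rw [prod_gw (fun _ => (1 : ℝ)) 3 T]
  unfold gw
  rw [prod_pf _ fun p : ℕ => (1 : ℝ) / ((p : ℝ) - (3 : ℕ))]
  refine prod_congr rfl fun p _ => ?_
  cases T p <;> rfl

/-- the left hand side for one typing -/
lemma lhs_T (T : Pr z y → Option (Fin 3)) :
    G3 k (Dl T) * ∏ j, gw 1 3 (Dl T j) =
      ∑ ξ : Pr z y → Option (Vk k), ∏ p : Pr z y, Lt (T p) (ξ p) (hx ξ p) p := by
  rw [gw_prod]
  unfold G3
  rw [prod_Dl, gs_fix (z := z) (y := y) _ 3 _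
    (Nat.mem_divisors.2 ⟨nb_dvd_PP _, PP_ne_zero z y⟩)]
  exact sum_congr rfl fun ξ _ => tm_eq T ξ

/-- the local sum -/
lemma loc_sum (hlam : S_LAM) (ξ : Pr z y → Option (Vk k)) (p : Pr z y) (T : Option (Fin 3)) :
    ∑ x ∈ univ.filter (fun x : Option (Ik k) => x.map ty = T ∧ fgi lbk x = ξ p),
      Gti lbk (fun _ => (1 / 2 : ℝ) ^ k) 3 ξ p x = Lt T (ξ p) (hx ξ p) p := by
  rw [sum_filter, Fintype.sum_option]
  unfold Lt
  cases hξ : ξ p with
  | none =>
    cases T with
    | none =>
      rw [if_pos ⟨rfl, rfl⟩, Finset.sum_eq_zero fun i _ => if_neg fun e => by simp at e]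
      simp [Gti]
    | some c =>
      rw [if_neg (fun e => by simp at e), Finset.sum_eq_zero fun i _ => if_neg fun e => by
        have := e.2
        simp [fgi] at this]
      simp
  | some v =>
    cases T with
    | none =>
      rw [if_neg (fun e => by have := e.2; simp [fgi] at this),
        Finset.sum_eq_zero fun i _ => if_neg fun e => by simp at e]
      simp
    | some c =>
      rw [if_neg (fun e => by simp at e), zero_add]
      simp only [Option.elim]
      rw [hlam, sum_mul]
      refine sum_congr rfl fun i _ => ?_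
      by_cases h1 : ty i = c ∧ (lbk i).1.1 = v
      · rw [if_pos h1, if_pos ⟨by rw [Option.map_some, h1.1], by simp [fgi, h1.2]⟩]
        show wi (fun _ => (1 / 2 : ℝ) ^ k) 3 i p * chi (lbk i).1.2 (hx ξ p) = _
        unfold wi
        ring
      · rw [if_neg h1, if_neg, zero_mul]
        rintro ⟨e1, e2⟩
        apply h1
        simp only [fgi, Option.map_some, Option.some.injEq] at e1 e2
        exact ⟨e1, e2⟩

/-- the numbers of the primes -/
lemma om_Dl (l : Pr z y → Option (Ik k)) :
    (fun a => ∑ i ∈ univ.filter (fun i : Ik k => ty i = a), (Dl l i).primeFactors.card) =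
      om3 (Dl fun p => (l p).map ty) := by
  funext a
  unfold om3
  have h1 : ∀ {ι : Type} [DecidableEq ι] (l : Pr z y → Option ι) (i : ι),
      (Dl l i).primeFactors.card = (univ.filter (fun p : Pr z y => l p = some i)).card := by
    intro ι _ l i
    unfold Dl
    rw [nb_pf]
    unfold Pool.Agent.W762.RK2.Ts
    rw [card_map]
    simp only [decide_eq_true_eq]
  rw [h1, Finset.sum_congr rfl fun i _ => h1 l i, ← card_biUnion]
  · congr 1
    ext p
    rw [mem_biUnion]
    simp only [mem_filter, mem_univ, true_and, Option.map_eq_some_iff]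
    constructor
    · rintro ⟨i, h2, h3⟩
      exact ⟨i, h3, h2⟩
    · rintro ⟨i, h2, h3⟩
      exact ⟨i, h3, h2⟩
  · intro i _ j _ hij
    rw [Function.onFun, Finset.disjoint_left]
    intro p hp hp'
    rw [mem_filter] at hp hp'
    exact hij (Option.some.inj (hp.2.symm.trans hp'.2))

/-- **D2** -/
theorem s_exp (hlam : S_LAM) : S_EXP := by
  classical
  intro k z y F
  rw [sum_Tup, sum_Tup, Finset.sum_congr rfl fun T _ => by rw [lhs_T (k := k) T]]
  rw [← Finset.sum_fiberwise univ
    (fun (l : Pr z y → Option (Ik k)) => fun p => (l p).map ty)]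
  refine Finset.sum_congr rfl fun T _ => ?_
  rw [← Finset.sum_fiberwise (univ.filter
    (fun l : Pr z y → Option (Ik k) => (fun p => (l p).map ty) = T))
    (fun (l : Pr z y → Option (Ik k)) => fun p => fgi lbk (l p)), Finset.mul_sum]
  refine Finset.sum_congr rfl fun ξ _ => ?_
  rw [Finset.prod_congr rfl fun p _ => (loc_sum hlam ξ p (T p)).symm, Finset.prod_univ_sum,
    Finset.mul_sum]
  have h1 : ((univ.filter fun l : Pr z y → Option (Ik k) => (fun p => (l p).map ty) = T).filter
      fun l => (fun p => fgi lbk (l p)) = ξ) =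
      Fintype.piFinset (fun p => univ.filter
        (fun x : Option (Ik k) => x.map ty = T p ∧ fgi lbk x = ξ p)) := by
    ext l
    simp only [Finset.mem_filter, Finset.mem_univ, true_and, Fintype.mem_piFinset, funext_iff]
    constructor
    · rintro ⟨h1, h2⟩ p
      exact ⟨h1 p, h2 p⟩
    · intro h
      exact ⟨fun p => (h p).1, fun p => (h p).2⟩
  rw [h1]
  refine Finset.sum_congr rfl fun l hl => ?_
  rw [Fintype.mem_piFinset] at hl
  have h2 : ∀ p, (l p).map ty = T p ∧ fgi lbk (l p) = ξ p := fun p => (Finset.mem_filter.1 (hl p)).2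
  rw [rhs_termi lbk (fun _ => (1 / 2 : ℝ) ^ k) 3 ξ l fun p => (h2 p).2, om_Dl,
    show (fun p => (l p).map ty) = T from funext fun p => (h2 p).1]
  ring

end

end Pool.Agent.L0h71.TT
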