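import Pool.Agent.L0h5.TT.Stm
import Pool.Agent.L0h94.FT.Loc2

/-!
# Project TT, module D1: the local density in characters (helper71)
-/

set_option autoImplicit false

namespace Pool.Agent.L0h71.TT

open Finset Pool.Agent.L0h5.TT Pool.Agent.L0h94.FT Pool.Agent.L0h5.TF
open Pool.Agent.W262.RK (ec)

lemma prod_sum2 {k : ℕ} (G : Fin k → Bool → Bool → ℝ) :
    ∏ i, ∑ b : Bool, ∑ x : Bool, G i b x =
      ∑ b : Fin k → Bool, ∑ x : Fin k → Bool, ∏ i, G i (b i) (x i) := by
  rw [Finset.prod_univ_sum, Fintype.piFinset_univ]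
  apply Finset.sum_congr rfl
  intro b _
  rw [Finset.prod_univ_sum, Fintype.piFinset_univ]

lemma sum_Ik {k : ℕ} (F : Fin 3 × (Fin k → Bool) × (Fin k → Bool) → ℝ) :
    ∑ i : Ik k, F i.1 = ∑ c : Fin 3, ∑ v : Fin k → Bool, ∑ x : Fin k → Bool,
      if Even (univ.filter (fun j => (v j && x j) = true)).card then F (c, v, x) else 0 := by
  have h1 : ∑ i : Ik k, F i.1 = ∑ r ∈ univ.filter
      (fun r : Fin 3 × (Fin k → Bool) × (Fin k → Bool) =>
      Even (univ.filter (fun j => (r.2.1 j && r.2.2 j) = true)).card), F r :=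
    (Finset.sum_subtype (univ.filter fun r : Fin 3 × (Fin k → Bool) × (Fin k → Bool) =>
      Even (univ.filter (fun j => (r.2.1 j && r.2.2 j) = true)).card) (fun x => by simp) F).symm
  rw [h1, sum_filter, Fintype.sum_prod_type]
  refine sum_congr rfl fun c _ => ?_
  rw [Fintype.sum_prod_type]

lemma vvk_eq {k : ℕ} (c : Fin 3) (b : Fin k → Bool) (V : Vk k) :
    (∏ i, Pe c (b i) (V i)) = if vvk c b = V then 1 else 0 := by
  unfold Pe
  split_ifs with h
  · apply Finset.prod_eq_one
    intro i _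
    rw [if_pos]
    rw [← h]
    rfl
  · have : ∃ i, ev c (b i) ≠ V i := by
      by_contra hcon
      push Not at hcon
      exact h (funext hcon)
    obtain ⟨i, hi⟩ := this
    exact Finset.prod_eq_zero (mem_univ i) (if_neg hi)

lemma sum_sign {k : ℕ} (b x : Fin k → Bool) :
    ∑ e : Bool, (1 / 2 : ℝ) * ∏ i, (if (b i && x i && e) = true then (-1 : ℝ) else 1) =
      if Even (univ.filter (fun j => (b j && x j) = true)).card then 1 else 0 := by
  rw [Fintype.sum_bool]
  have h1 : ∏ i, (if (b i && x i && true) = true then (-1 : ℝ) else 1) =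
      (-1) ^ (univ.filter (fun j => (b j && x j) = true)).card := by
    simp only [Bool.and_true]
    rw [Finset.prod_ite, Finset.prod_const, Finset.prod_const_one, mul_one]
  have h2 : ∏ i, (if (b i && x i && false) = true then (-1 : ℝ) else 1) = 1 := by
    apply Finset.prod_eq_one
    intro i _
    simp
  rw [h1, h2]
  split_ifs with h
  · rw [h.neg_one_pow]
    norm_num
  · rw [Nat.not_even_iff_odd] at h
    rw [h.neg_one_pow]
    norm_num

/-- **D1** -/
theorem s_lam : S_LAM := by
  intro k c V H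
  have h1 : ∑ i : Ik k, (if ty i = c ∧ (lbk i).1.1 = V then
      (1 / 2 : ℝ) ^ k * chi (lbk i).1.2 H else 0) =
      ∑ c' : Fin 3, ∑ v : Fin k → Bool, ∑ x : Fin k → Bool,
      if Even (univ.filter (fun j => (v j && x j) = true)).card then
        (if c' = c ∧ vvk c' v = V then (1 / 2 : ℝ) ^ k * chi (xxk c' x) H else 0) else 0 :=
    sum_Ik (fun r : Fin 3 × (Fin k → Bool) × (Fin k → Bool) =>
        if r.1 = c ∧ vvk r.1 r.2.1 = V then (1 / 2 : ℝ) ^ k * chi (xxk r.1 r.2.2) H else 0)
  rw [h1]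
  rw [Finset.sum_eq_single c (fun c' _ hc' => by
      apply Finset.sum_eq_zero
      intro v _
      apply Finset.sum_eq_zero
      intro x _
      rw [if_neg (fun e : c' = c ∧ _ => hc' e.1)]
      simp) (fun h => absurd (mem_univ c) h)]
  unfold lamc
  have h2 : ∀ e : Bool, (1 / 2 : ℝ) * ∏ i, iL (Lce c e) (V i) (H i) =
      ∑ b : Fin k → Bool, ∑ x : Fin k → Bool, (∏ i, Pe c (b i) (V i)) *
        (((1 / 2 : ℝ) ^ k * ∏ i, ch1 (ex c (x i)) (H i)) *
        ((1 / 2 : ℝ) * ∏ i, (if (b i && x i && e) = true then (-1 : ℝ) else 1))) := by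
    intro e
    rw [Finset.prod_congr rfl fun i _ => iL_eq c e (V i) (H i), prod_sum2, Finset.mul_sum]
    apply Finset.sum_congr rfl
    intro b _
    rw [Finset.mul_sum]
    apply Finset.sum_congr rfl
    intro x _
    rw [Finset.prod_mul_distrib, Finset.prod_mul_distrib, Finset.prod_mul_distrib,
      Finset.prod_const, card_univ, Fintype.card_fin]
    ring
  rw [Finset.sum_congr rfl fun e _ => h2 e, Finset.sum_comm]
  apply Finset.sum_congr rfl
  intro b _
  rw [Finset.sum_comm]
  apply Finset.sum_congr rfl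
  intro x _
  rw [← Finset.mul_sum, ← Finset.mul_sum, sum_sign, vvk_eq, chi_prod]
  by_cases h3 : vvk c b = V
  · by_cases h4 : Even (univ.filter (fun j => (b j && x j) = true)).card
    · rw [if_pos h3, if_pos h4, if_pos h4, if_pos ⟨rfl, h3⟩]
      unfold xxk
      ring
    · rw [if_neg h4, if_neg h4, mul_zero, mul_zero]
  · rw [if_neg h3, zero_mul]
    simp [h3]

end Pool.Agent.L0h71.TT
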